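import Pool.Agent.U425.LV.Fin

set_option autoImplicit false

namespace Pool.Agent.Results.MP_bdab2f_nt.FiniteLevelSet

open Pool.Agent.R341.Uni

/-- The smallest univoque base function `q_s(x) = inf U(x)`, where
`Ux x = {q | 1 < q ∧ q ≤ 2 ∧ x has exactly one q-expansion}`. -/
noncomputable def qs (x : ℝ) : ℝ := sInf (Ux x)

/-- The level set of `q_s` at `q`. -/
def L (q : ℝ) : Set ℝ := {x | 0 < x ∧ qs x = q}

/-- The largest value of `q_s` on `(0, ∞)`. -/
noncomputable def qmax : ℝ := sSup (qs '' Set.Ioi 0)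

/-- The periodic sequence `(1110011100110)^∞`. -/
def b : ℕ → Bool := fun n =>
  [true, true, true, false, false, true, true, true, false, false, true, true, false].getD
    (n % 13) false

theorem b_eq : b = Pool.Agent.U425.LV.B := by
  funext n
  rw [Pool.Agent.U425.LV.B_eq]
  rfl

/-- There is a base `q` in the closure of `U = U(1)` with `q ≤ q_max` whose level set `L(q)` has at
most one element, in particular is finite. Here `1` has the expansion `(1110011100110)^∞` in base
`q`. -/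
theorem result : ∃ q : ℝ, 1.888443 < q ∧ q < 1.888444 ∧ P q b = 1 ∧ q ∈ closure (Ux 1) ∧
    q ≤ qmax ∧ L q ⊆ {1 / q + 1 / (q ^ 4 * (q - 1))} ∧ (L q).Finite := by
  obtain ⟨Q, hQ⟩ := Pool.Agent.U425.LV.exists_base
  have hsub : L Q ⊆ {1 / Q + 1 / (Q ^ 4 * (Q - 1))} := fun x hx =>
    Pool.Agent.U425.LV.level hQ hx.1 hx.2
  refine ⟨Q, hQ.lo, hQ.hi, ?_, Pool.Agent.U425.LV.mem_clos hQ, Pool.Agent.U425.LV.le_max hQ, hsub,
    (Set.finite_singleton _).subset hsub⟩
  rw [b_eq]
  exact hQ.one

end Pool.Agent.Results.MP_bdab2f_nt.FiniteLevelSet
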